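import Pool.Agent.N211.TP2.Main

/-!
# The motivated Mumford-Tate conjecture for a variety follows from one of its powers

Let `X` be a smooth projective variety over a finitely generated subfield `F` of the field of complex
numbers, let `b` be the sum of its Betti numbers and let `M = (4 b b! (b ^ 2 + 1)) ^ (b ^ 2 + 1)`.

* If all Hodge classes on `X ^ M` are motivated (André), then all Hodge classes on all powers of `X`
  are motivated: the Mumford-Tate group of `X` is its motivic Galois group.
* If the representation of the Galois group on the cohomology of even degree of `X ^ M` is semisimple
  and all Tate classes on `X ^ M` are linear combinations of motivated classes, then the Galois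
  group acts semisimply on the cohomology of all powers of `X`, and all Tate classes on all powers
  are linear combinations of motivated classes: the identity component of the `ℓ`-adic monodromy
  group of `X` is its motivic Galois group.

The proof. The motivated classes on all powers of `X` form a system of Hodge classes which is stable
under products, coordinate pull-backs and push-forwards, with nondegenerate intersection pairing.
Every Frobenius element gives, by the slopes of its eigenvalues at the places above `p`,
one-parameter groups (the Newton cocharacters), whose weights are bounded in terms of `b`. They fix
the Tate classes, and a class of even degree which is fixed by all Newton cocharacters is a Tate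
class: the normalised Frobenius eigenvalues on the space spanned by its conjugates are roots of
unity of bounded degree, the Frobenius elements are Zariski dense, and by the theorem of Burnside the
image of the Galois group in the linear group of this space is finite. By a counting argument
matrices which fix the Tate classes on `X ^ M` fix all Tate classes on all powers. As the Tate classes
on `X ^ M` are combinations of motivated classes, which are Hodge classes, the group of these
matrices is stable under the adjoints for the polarisation; so a positivity argument shows that all
Tate classes are combinations of motivated classes, and that the Galois group acts semisimply.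
For the Hodge classes the Newton cocharacters are replaced by the conjugates of the Hodge
cocharacter.
-/

open CategoryTheory AlgebraicGeometry

universe u

namespace Pool.Agent.Results.MP_b8862a_ag.BoundedPower

open Pool.Agent.H914 Pool.Agent.Y121.AHS Pool.Agent.N211.TP2

/-- **The motivated Mumford-Tate conjecture for `X` follows from one power of `X`.** -/
theorem result {k : Type u} [Field k] {𝒱 : VarClass k} {ops : CycleOps 𝒱} (T : HodgeTheory ops)
    {X : 𝒱.Obj} (ψ : Bil T.W.K (T.W.H X)) (hψ : IsPolarisation T X ψ)
    {E : Type} [Field E] [Algebra T.W.K E] [TopologicalSpace E] [IsTopologicalRing E] [T2Space E]
    (hE : Nonempty (E →+* ℂ)) {Γ : Type} [Group Γ] [TopologicalSpace Γ] [IsTopologicalGroup Γ]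
    (χ : Γ → E) (ρ : ∀ n, Γ → PowH T E X n → PowH T E X n)
    (hG : IsGalois (cohOps T E ψ) χ ρ) (hA : IsArithmetic (cohOps T E ψ) χ ρ)
    (hM : ∀ n j, ∀ x ∈ motClasses T E X n j, IsTate (cohOps T E ψ) χ ρ j x)
    {N : ℕ} (hN : N + 1 = exponent (Module.finrank T.W.K (T.W.H X))) :
    (HodgeMotivated T X N → ∀ n, HodgeMotivated T X n) ∧
    ((∀ j, IsSemisimple (cohOps T E ψ) ρ ⊤ N (2 * j)) →
      TateFrom (cohOps T E ψ) χ ρ (motClasses T E X) N →
      ∀ n, TateFrom (cohOps T E ψ) χ ρ (motClasses T E X) n ∧
        ∀ Δ : Subgroup Γ, Δ.FiniteIndex → ∀ i, IsSemisimple (cohOps T E ψ) ρ Δ n i) :=
  main hψ hE hG hA hM hN

end Pool.Agent.Results.MP_b8862a_ag.BoundedPower
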