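import Pool.Agent.N171.TG.Mt4

/-!
# The Mumford-Tate conjecture for motives (Galois side) from the Galois image modulo two

Let `K` be a number field in the complex numbers and let `M i` be finitely many motives over `K` (for
example André motives) with ALTERNATING polarizations, of weight `w i` and rank `N i ≥ 6`; for instance
the (primitive) cohomology in the middle degree of smooth projective varieties of odd dimension. Let `Z` be
an ARBITRARY motive over `K`. The last equality in the question says that the identity component of the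
Zariski closure of the `ℓ`-adic image of the Galois group is the motivated Galois group. We work with
Lie algebras: the Lie algebra of the image consists of the limits `X` of the difference quotients
`(ρ (σ n) - 1) / ℓ ^ n` (`IsTangent`, and `IsTangentWith` with the components on `Z`), always together with
the component `c` on the motive `ℚ(-1)`. The motivated Galois group preserves the polarizations up to
the character of weight, so its Lie algebra is contained in the Lie algebra of the similitudes, defined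
by `Xᵀ J + J X = w c J`, and it contains the Lie algebra of the Galois image.

**Theorem.** Suppose that the polarizations are integral with odd determinant on 2-adic lattices stable
under Galois, and that the joint image of the Galois group of `K` on the `M i` MODULO TWO is large
(`LargeModTwo`: there are `N i + 1` integral vectors with odd mutual products, and each EVEN permutation of
these vectors modulo two is given by an element which acts trivially on the other lattices modulo two; for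
example if the joint image modulo two contains the product of the groups `Sp(N i, 𝔽₂)`, or only the product of
the alternating groups of degrees `N i + 1`). Then:

1. at `ℓ = 2`, and at all `ℓ` outside of a set of prime numbers of density zero, the Lie algebra of the
   Galois image on the sum `M` of the `M i` is as large as the polarizations allow, so it is equal to the
   Lie algebra of the motivated Galois group: the last equality holds for `M` and all motives generated
   by `M` (`MumfordTateAt`); and the image is open: it contains a neighbourhood of `1` in the product of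
   the symplectic groups of the `J i` over `ℚ_ℓ` (`OpenImageAt`);
2. at EVERY prime number `ℓ` at which the `M i` are semisimple it is equivalent to the part on
   endomorphisms: every matrix which commutes with the action of an open subgroup on `M i` is scalar; and
   the `M i` are semisimple for every `ℓ` if `K = ℚ` and they are pure with integral multiples of the
   Frobenius eigenvalues;
3. at `ℓ = 2`, for EVERY motive `Z` over `K` such that some Galois element acts trivially modulo two on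
   `Z` and permutes the frames modulo two, the `i`-th one not trivially (for each `i`), or such that
   `(N i + 1)! > 2 ^ (d ^ 2 + 1)`, where `d` is the rank of `Z` (`FreeValues`): the Lie algebra of the image
   for `M ⊕ Z` is the fibre product of the Lie algebras of similitudes and of the Lie algebra for
   `Z`; so the last equality holds for `M ⊕ Z` if and only if it holds for `Z`: for every subspace `𝔪` (the
   Lie algebra of the motivated Galois group of `M ⊕ Z`) between the Lie algebra of the image and the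
   similitudes, `𝔪` is equal to the Lie algebra of the image if and only if this is true after the
   projection to `Z`. No semisimplicity, purity or compatibility is assumed for `Z`.

For a single hyperelliptic Jacobian part of this is known (Zarhin); for general motives the size of the
image at ONE prime number is the hypothesis of the results of Larsen and Pink; here the hypothesis is
the image modulo two, a finite group. For arbitrary abelian varieties `Z` and `M` of abelian type also the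
first equality (Hodge classes are motivated) is known by the theorems of Deligne and André.
-/

set_option autoImplicit false

namespace Pool.Agent.Results.MP_b8862a_ag.FromImageModTwo

open Matrix Polynomial Filter Topology NumberField IsDedekindDomain

/-- the absolute Galois group, with the profinite (Krull) topology -/
abbrev AbsoluteGaloisGroup (K : Type) [Field K] : Type := Gal(AlgebraicClosure K/K)

/-- `σ` is a Frobenius element at the prime `v` of `K`: there is a maximal ideal `Q` above `v` of the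
ring of all algebraic integers with `σ x ≡ x ^ N(v)` modulo `Q` for all `x` -/
def IsFrobenius {K : Type} [Field K] [NumberField K] (v : HeightOneSpectrum (𝓞 K))
    (σ : AbsoluteGaloisGroup K) : Prop :=
  ∃ Q : Ideal (𝓞 (AlgebraicClosure K)), Q.IsMaximal ∧
    Q.comap (algebraMap (𝓞 K) (𝓞 (AlgebraicClosure K))) = v.asIdeal ∧
    ∀ x : 𝓞 (AlgebraicClosure K), σ • x - x ^ Ideal.absNorm v.asIdeal ∈ Q

/-- the rational matrix as an `ℓ`-adic matrix -/
noncomputable abbrev adic (ℓ : ℕ) [Fact ℓ.Prime] {n : ℕ} (J : Matrix (Fin n) (Fin n) ℚ) :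
    Matrix (Fin n) (Fin n) ℚ_[ℓ] :=
  J.map (algebraMap ℚ ℚ_[ℓ])

/-- The `ℓ`-adic realizations, for all prime numbers `ℓ`, of motives of rank `N i` and weight `w i` over
the number field `K`, with alternating polarization `J i`, good reduction outside of the finite set `S` of
places and Frobenius polynomials `P i v`; `κ ℓ` is the inverse of the cyclotomic character. -/
structure IsSystem {K : Type} [Field K] [NumberField K] {ι : Type} {N w : ι → ℕ}
    (S : Set (HeightOneSpectrum (𝓞 K))) (P : ι → HeightOneSpectrum (𝓞 K) → ℚ[X])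
    (J : ∀ i, Matrix (Fin (N i)) (Fin (N i)) ℚ)
    (κ : ∀ (ℓ : ℕ) [Fact ℓ.Prime], AbsoluteGaloisGroup K →* ℚ_[ℓ])
    (ρ : ∀ (i : ι) (ℓ : ℕ) [Fact ℓ.Prime],
      AbsoluteGaloisGroup K →* Matrix (Fin (N i)) (Fin (N i)) ℚ_[ℓ]) : Prop where
  finite : S.Finite
  alternating : ∀ i, (J i)ᵀ = -J i
  nondegenerate : ∀ i, (J i).det ≠ 0
  continuous_char : ∀ (ℓ : ℕ) [Fact ℓ.Prime], Continuous (κ ℓ)
  char_frobenius : ∀ (ℓ : ℕ) [Fact ℓ.Prime], ∀ v ∉ S, (ℓ : 𝓞 K) ∉ v.asIdeal →
    ∀ σ : AbsoluteGaloisGroup K, IsFrobenius v σ → κ ℓ σ⁻¹ = (Ideal.absNorm v.asIdeal : ℚ_[ℓ])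
  continuous : ∀ (i : ι) (ℓ : ℕ) [Fact ℓ.Prime], Continuous (ρ i ℓ)
  similitude : ∀ (i : ι) (ℓ : ℕ) [Fact ℓ.Prime] (g : AbsoluteGaloisGroup K),
    (ρ i ℓ g)ᵀ * adic ℓ (J i) * ρ i ℓ g = κ ℓ g ^ w i • adic ℓ (J i)
  frobenius : ∀ (i : ι) (ℓ : ℕ) [Fact ℓ.Prime], ∀ v ∉ S, (ℓ : 𝓞 K) ∉ v.asIdeal →
    ∀ σ : AbsoluteGaloisGroup K, IsFrobenius v σ →
      (ρ i ℓ σ⁻¹).charpoly = (P i v).map (algebraMap ℚ ℚ_[ℓ])

/-- The image of Galois modulo two is large: the lattices `ℤ₂ ^ N i` are stable, the forms are integral,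
`N i ≥ 6`, the `N i + 1` integral vectors `e i a` have odd products `J i (e i a, e i b)` for
`a ≠ b`, and each even permutation of the vectors `e i a` modulo two is the action of an element of the
Galois group which acts trivially on the other lattices modulo two. -/
structure LargeModTwo {K : Type} [Field K] {ι : Type} {N : ι → ℕ}
    (J : ∀ i, Matrix (Fin (N i)) (Fin (N i)) ℚ)
    (ρ : ∀ i, AbsoluteGaloisGroup K →* Matrix (Fin (N i)) (Fin (N i)) ℚ_[2])
    (e : ∀ i, Fin (N i + 1) → Fin (N i) → ℚ_[2]) : Prop where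
  rank : ∀ i, 6 ≤ N i
  integral : ∀ i g a b, ‖ρ i g a b‖ ≤ 1
  integral_form : ∀ i a b, ‖adic 2 (J i) a b‖ ≤ 1
  integral_vectors : ∀ i a b, ‖e i a b‖ ≤ 1
  products : ∀ i a b, a ≠ b → ‖e i a ⬝ᵥ adic 2 (J i) *ᵥ e i b‖ = 1
  permutations : ∀ i (π : Equiv.Perm (Fin (N i + 1))), Equiv.Perm.sign π = 1 →
    ∃ g : AbsoluteGaloisGroup K, (∀ a b, ‖(ρ i g *ᵥ e i a - e i (π a)) b‖ < 1) ∧
      ∀ j, j ≠ i → ∀ a b, ‖(ρ j g - 1) a b‖ < 1

/-- The 2-adic realization `τ` of the motive `Z` is continuous and integral, and modulo two it does not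
absorb the permutations of the frames: for each `i` some element of the Galois group acts trivially modulo
two on `Z` and permutes all the frames modulo two, the `i`-th frame not trivially; or the factorial of
`N i + 1` is greater than `2 ^ (d ^ 2 + 1)`. -/
structure FreeValues {K : Type} [Field K] {ι : Type} {N : ι → ℕ} {d : ℕ}
    (ρ : ∀ i, AbsoluteGaloisGroup K →* Matrix (Fin (N i)) (Fin (N i)) ℚ_[2])
    (e : ∀ i, Fin (N i + 1) → Fin (N i) → ℚ_[2])
    (τ : AbsoluteGaloisGroup K →* Matrix (Fin d) (Fin d) ℚ_[2]) : Prop where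
  continuous : Continuous τ
  integral : ∀ g a b, ‖τ g a b‖ ≤ 1
  free : ∀ i, 2 ^ (d ^ 2 + 1) < (N i + 1).factorial ∨
    ∃ (g : AbsoluteGaloisGroup K) (π : ∀ j, Equiv.Perm (Fin (N j + 1))),
      (∀ a b, ‖(τ g - 1) a b‖ < 1) ∧ π i ≠ 1 ∧
        ∀ j a b, ‖(ρ j g *ᵥ e j a - e j (π j a)) b‖ < 1

/-- the difference quotients of `ρ` along the sequence `σ` converge to `X` -/
def HasDerivative {K : Type} [Field K] (ℓ : ℕ) [Fact ℓ.Prime] {n : ℕ}
    (ρ : AbsoluteGaloisGroup K →* Matrix (Fin n) (Fin n) ℚ_[ℓ]) (σ : ℕ → AbsoluteGaloisGroup K)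
    (X : Matrix (Fin n) (Fin n) ℚ_[ℓ]) : Prop :=
  Tendsto (fun n : ℕ => ((ℓ : ℚ_[ℓ]) ^ n)⁻¹ • (ρ (σ n) - 1)) atTop (𝓝 X)

/-- the difference quotients of the character `κ` along the sequence `σ` converge to `c` -/
def HasDerivativeChar {K : Type} [Field K] (ℓ : ℕ) [Fact ℓ.Prime]
    (κ : AbsoluteGaloisGroup K →* ℚ_[ℓ]) (σ : ℕ → AbsoluteGaloisGroup K) (c : ℚ_[ℓ]) : Prop :=
  Tendsto (fun n : ℕ => ((ℓ : ℚ_[ℓ]) ^ n)⁻¹ * (κ (σ n) - 1)) atTop (𝓝 c)

/-- `(X, c)` is in the Lie algebra of the Galois image on the motives `M i` and on `ℚ(-1)` -/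
def IsTangent {K : Type} [Field K] {ι : Type} {N : ι → ℕ} (ℓ : ℕ) [Fact ℓ.Prime]
    (ρ : ∀ i, AbsoluteGaloisGroup K →* Matrix (Fin (N i)) (Fin (N i)) ℚ_[ℓ])
    (κ : AbsoluteGaloisGroup K →* ℚ_[ℓ]) (X : ∀ i, Matrix (Fin (N i)) (Fin (N i)) ℚ_[ℓ])
    (c : ℚ_[ℓ]) : Prop :=
  ∃ σ, (∀ i, HasDerivative ℓ (ρ i) σ (X i)) ∧ HasDerivativeChar ℓ κ σ c

/-- `(X, Y, c)` is in the Lie algebra of the Galois image on the motives `M i`, `Z` and `ℚ(-1)` -/
def IsTangentWith {K : Type} [Field K] {ι : Type} {N : ι → ℕ} {d : ℕ}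
    (ρ : ∀ i, AbsoluteGaloisGroup K →* Matrix (Fin (N i)) (Fin (N i)) ℚ_[2])
    (τ : AbsoluteGaloisGroup K →* Matrix (Fin d) (Fin d) ℚ_[2])
    (κ : AbsoluteGaloisGroup K →* ℚ_[2]) (X : ∀ i, Matrix (Fin (N i)) (Fin (N i)) ℚ_[2])
    (Y : Matrix (Fin d) (Fin d) ℚ_[2]) (c : ℚ_[2]) : Prop :=
  ∃ σ, (∀ i, HasDerivative 2 (ρ i) σ (X i)) ∧ HasDerivative 2 τ σ Y ∧ HasDerivativeChar 2 κ σ c

/-- `(Y, c)` is in the Lie algebra of the Galois image on the motives `Z` and `ℚ(-1)` -/
def IsTangentOf {K : Type} [Field K] {d : ℕ}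
    (τ : AbsoluteGaloisGroup K →* Matrix (Fin d) (Fin d) ℚ_[2])
    (κ : AbsoluteGaloisGroup K →* ℚ_[2]) (Y : Matrix (Fin d) (Fin d) ℚ_[2]) (c : ℚ_[2]) : Prop :=
  ∃ σ, HasDerivative 2 τ σ Y ∧ HasDerivativeChar 2 κ σ c

/-- `X` is in the Lie algebra of the group of similitudes of the polarizations, with the component
`c` on `ℚ(-1)` -/
def IsSimilitude {ι : Type} {N : ι → ℕ} (w : ι → ℕ) (J : ∀ i, Matrix (Fin (N i)) (Fin (N i)) ℚ)
    (ℓ : ℕ) [Fact ℓ.Prime] (X : ∀ i, Matrix (Fin (N i)) (Fin (N i)) ℚ_[ℓ]) (c : ℚ_[ℓ]) : Prop :=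
  ∀ i, (X i)ᵀ * adic ℓ (J i) + adic ℓ (J i) * X i = ((w i : ℚ_[ℓ]) * c) • adic ℓ (J i)

/-- the Lie algebra of the Galois image is the Lie algebra of the similitudes (in particular it is
equal to the Lie algebra of the motivated Galois group, which lies in between) -/
def MumfordTateAt {K : Type} [Field K] {ι : Type} {N : ι → ℕ} (w : ι → ℕ)
    (J : ∀ i, Matrix (Fin (N i)) (Fin (N i)) ℚ) (ℓ : ℕ) [Fact ℓ.Prime]
    (ρ : ∀ i, AbsoluteGaloisGroup K →* Matrix (Fin (N i)) (Fin (N i)) ℚ_[ℓ])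
    (κ : AbsoluteGaloisGroup K →* ℚ_[ℓ]) : Prop :=
  ∀ X c, IsTangent ℓ ρ κ X c ↔ IsSimilitude w J ℓ X c

/-- the Galois image contains a neighbourhood of `1` in the product of the symplectic groups -/
def OpenImageAt {K : Type} [Field K] {ι : Type} {N : ι → ℕ}
    (J : ∀ i, Matrix (Fin (N i)) (Fin (N i)) ℚ) (ℓ : ℕ) [Fact ℓ.Prime]
    (ρ : ∀ i, AbsoluteGaloisGroup K →* Matrix (Fin (N i)) (Fin (N i)) ℚ_[ℓ]) : Prop :=
  ∃ ε : ℝ, 0 < ε ∧ ∀ g : ∀ i, Matrix (Fin (N i)) (Fin (N i)) ℚ_[ℓ],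
    (∀ i, (g i)ᵀ * adic ℓ (J i) * g i = adic ℓ (J i)) → (∀ i a b, ‖(g i - 1) a b‖ < ε) →
      ∃ σ, ∀ i, ρ i σ = g i

/-- every matrix which commutes with the action of an open subgroup is scalar -/
def HasScalarEnd {K : Type} [Field K] (ℓ : ℕ) [Fact ℓ.Prime] {n : ℕ}
    (ρ : AbsoluteGaloisGroup K →* Matrix (Fin n) (Fin n) ℚ_[ℓ]) : Prop :=
  ∀ (A : Matrix (Fin n) (Fin n) ℚ_[ℓ]) (U : Subgroup (AbsoluteGaloisGroup K)),
    IsOpen (U : Set (AbsoluteGaloisGroup K)) → (∀ σ ∈ U, A * ρ σ = ρ σ * A) →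
      ∃ c : ℚ_[ℓ], A = c • (1 : Matrix (Fin n) (Fin n) ℚ_[ℓ])

/-- every stable subspace has a stable complement -/
def IsSemisimple {K : Type} [Field K] (ℓ : ℕ) [Fact ℓ.Prime] {n : ℕ}
    (ρ : AbsoluteGaloisGroup K →* Matrix (Fin n) (Fin n) ℚ_[ℓ]) : Prop :=
  ∀ W : Submodule ℚ_[ℓ] (Fin n → ℚ_[ℓ]), (∀ g, ∀ x ∈ W, ρ g *ᵥ x ∈ W) →
    ∃ W' : Submodule ℚ_[ℓ] (Fin n → ℚ_[ℓ]), IsCompl W W' ∧ ∀ g, ∀ x ∈ W', ρ g *ᵥ x ∈ W'

/-- the Lie algebra of the Galois image on the sum of the `M i` and `Z` is the fibre product of the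
similitudes and of the Lie algebra of the Galois image on `Z` -/
def IsFibreProduct {K : Type} [Field K] {ι : Type} {N : ι → ℕ} {d : ℕ} (w : ι → ℕ)
    (J : ∀ i, Matrix (Fin (N i)) (Fin (N i)) ℚ)
    (ρ : ∀ i, AbsoluteGaloisGroup K →* Matrix (Fin (N i)) (Fin (N i)) ℚ_[2])
    (τ : AbsoluteGaloisGroup K →* Matrix (Fin d) (Fin d) ℚ_[2])
    (κ : AbsoluteGaloisGroup K →* ℚ_[2]) : Prop :=
  ∀ X Y c, IsTangentWith ρ τ κ X Y c ↔ IsTangentOf τ κ Y c ∧ IsSimilitude w J 2 X c

/-- for every subspace `𝔪` (the Lie algebra of the motivated Galois group of the sum of the `M i` and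
`Z`) which contains the Lie algebra of the Galois image and is contained in the similitudes: `𝔪` is the
Lie algebra of the Galois image if and only if this is true after the projection to `Z` -/
def MumfordTateIffFor {K : Type} [Field K] {ι : Type} {N : ι → ℕ} {d : ℕ} (w : ι → ℕ)
    (J : ∀ i, Matrix (Fin (N i)) (Fin (N i)) ℚ)
    (ρ : ∀ i, AbsoluteGaloisGroup K →* Matrix (Fin (N i)) (Fin (N i)) ℚ_[2])
    (τ : AbsoluteGaloisGroup K →* Matrix (Fin d) (Fin d) ℚ_[2])
    (κ : AbsoluteGaloisGroup K →* ℚ_[2]) : Prop :=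
  ∀ 𝔪 : Submodule ℚ_[2] ((∀ i, Matrix (Fin (N i)) (Fin (N i)) ℚ_[2]) ×
      Matrix (Fin d) (Fin d) ℚ_[2] × ℚ_[2]),
    (∀ X Y c, IsTangentWith ρ τ κ X Y c → (X, Y, c) ∈ 𝔪) →
    (∀ X Y c, (X, Y, c) ∈ 𝔪 → IsSimilitude w J 2 X c) →
    ((∀ X Y c, (X, Y, c) ∈ 𝔪 → IsTangentWith ρ τ κ X Y c) ↔
      ∀ X Y c, (X, Y, c) ∈ 𝔪 → IsTangentOf τ κ Y c)

/-- a set of prime numbers has natural density zero -/
def DensityZero (A : Set ℕ) : Prop :=
  Tendsto (fun n : ℕ => (Nat.card {ℓ : ℕ // ℓ ≤ n ∧ ℓ ∈ A} : ℝ) / (Nat.primeCounting n : ℝ))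
    atTop (𝓝 0)

/-- the motives are pure, and multiples of the Frobenius eigenvalues by powers of `N v` are
integral -/
def IsPureIntegral {K : Type} [Field K] [NumberField K] {ι : Type} (w : ι → ℕ)
    (S : Set (HeightOneSpectrum (𝓞 K))) (P : ι → HeightOneSpectrum (𝓞 K) → ℚ[X]) : Prop :=
  ∀ i, ∃ m : ℕ, 0 < w i + 2 * m ∧ ∀ v ∉ S,
    (∃ R : ℤ[X], R.map (algebraMap ℤ ℚ) =
      (P i v).scaleRoots ((Ideal.absNorm v.asIdeal : ℚ) ^ m)) ∧
    ∀ z : ℂ, aeval z (P i v) = 0 → ‖z‖ ^ 2 = (Ideal.absNorm v.asIdeal : ℝ) ^ w i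

theorem result {K : Type} [Field K] [NumberField K] {ι : Type} [Fintype ι] {N w : ι → ℕ}
    (S : Set (HeightOneSpectrum (𝓞 K))) (P : ι → HeightOneSpectrum (𝓞 K) → ℚ[X])
    (J : ∀ i, Matrix (Fin (N i)) (Fin (N i)) ℚ)
    (κ : ∀ (ℓ : ℕ) [Fact ℓ.Prime], AbsoluteGaloisGroup K →* ℚ_[ℓ])
    (ρ : ∀ (i : ι) (ℓ : ℕ) [Fact ℓ.Prime],
      AbsoluteGaloisGroup K →* Matrix (Fin (N i)) (Fin (N i)) ℚ_[ℓ])
    (h : IsSystem (w := w) S P J κ ρ)
    -- the hypothesis on the image modulo two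
    (e : ∀ i, Fin (N i + 1) → Fin (N i) → ℚ_[2]) (h2 : LargeModTwo J (fun i => ρ i 2) e) :
    -- (1) at the prime number two and at 100 percent of the prime numbers
    (MumfordTateAt w J 2 (fun i => ρ i 2) (κ 2) ∧ OpenImageAt J 2 (fun i => ρ i 2)) ∧
    DensityZero {ℓ | ∃ _ : Fact ℓ.Prime, ¬ (MumfordTateAt w J ℓ (fun i => ρ i ℓ) (κ ℓ) ∧
      OpenImageAt J ℓ (fun i => ρ i ℓ))} ∧
    -- (2) at every prime number
    (∀ (ℓ : ℕ) [Fact ℓ.Prime],
      ((∀ i, IsSemisimple ℓ (ρ i ℓ)) ∨ (Module.finrank ℚ K = 1 ∧ IsPureIntegral w S P)) →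
      ((MumfordTateAt w J ℓ (fun i => ρ i ℓ) (κ ℓ) ∧ OpenImageAt J ℓ (fun i => ρ i ℓ)) ↔
        ∀ i, HasScalarEnd ℓ (ρ i ℓ))) ∧
    -- (3) for sums with an arbitrary motive, at the prime number two
    ∀ (d : ℕ) (τ : AbsoluteGaloisGroup K →* Matrix (Fin d) (Fin d) ℚ_[2]),
      FreeValues (fun i => ρ i 2) e τ →
        IsFibreProduct w J (fun i => ρ i 2) τ (κ 2) ∧
          MumfordTateIffFor w J (fun i => ρ i 2) τ (κ 2) := by
  classical
  have hpos : ∀ i, 0 < N i := fun i => by have := h2.rank i; omega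
  have hdet2 : ∀ i, (adic 2 (J i)).det ≠ 0 := fun i =>
    Pool.Agent.R932.PO.det_map_ne (algebraMap ℚ ℚ_[2]) (h.nondegenerate i)
  have halt2 : ∀ i, (adic 2 (J i))ᵀ = -adic 2 (J i) := fun i =>
    (Pool.Agent.R932.PO.Fits.map (κ := .sym) (algebraMap ℚ ℚ_[2])
      (show Pool.Agent.R932.PO.Fits .sym (J i) from ⟨h.alternating i, hpos i⟩)).1
  have hform : ∀ i, Pool.Agent.R932.PO.IsForm (adic 2 (J i)) := fun i =>
    ⟨Or.inr (halt2 i), hdet2 i⟩
  have hfull : ∀ X, (∀ i, Pool.Agent.Y142.ZS.SpLie (Pool.Agent.R932.PO.JL J 2 i) (X i)) →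
      Pool.Agent.R932.PO.JTan 2 (fun i => ρ i 2) X := fun X hX =>
    Pool.Agent.N171.TG.jtan_of_large (fun i => ρ i 2) (fun i => adic 2 (J i))
      (fun i => (powMonoidHom (w i)).comp (κ 2))
      (fun i => Pool.Agent.R932.OP.even_of_alt (halt2 i) (hdet2 i)) h2.rank halt2 h2.integral
      h2.integral_form (fun i g => h.similitude i 2 g) e h2.integral_vectors h2.products
      h2.permutations X hX
  obtain ⟨r0, r1, r2, r3, r4⟩ := Pool.Agent.N171.TG.mt_all h.finite J h.alternating hpos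
    h.nondegenerate κ
    (fun ℓ _ => h.continuous_char ℓ) (fun ℓ _ => h.char_frobenius ℓ) ρ
    (fun i ℓ _ => h.continuous i ℓ) (fun i ℓ _ => h.similitude i ℓ)
    (fun i ℓ _ => h.frobenius i ℓ) 2 hfull
  refine ⟨r0, r1, ?_, ?_⟩
  · have hb : ∀ (ℓ : ℕ) [Fact ℓ.Prime], (∀ i, IsSemisimple ℓ (ρ i ℓ)) →
        ((MumfordTateAt w J ℓ (fun i => ρ i ℓ) (κ ℓ) ∧ OpenImageAt J ℓ (fun i => ρ i ℓ)) ↔
          ∀ i, HasScalarEnd ℓ (ρ i ℓ)) := by
      intro ℓ _ hss
      exact ⟨fun hm => r3 ℓ hm.1, fun hsc => r2 ℓ hss hsc⟩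
    rintro ℓ _ (hss | ⟨hK, hpi⟩)
    · exact hb ℓ hss
    · refine hb ℓ fun i => ?_
      obtain ⟨m, hm, hpi⟩ := hpi i
      exact r4 hK i m hm (fun v hv => (hpi v hv).1) (fun v hv => (hpi v hv).2) ℓ
  · intro d τ hτ
    have hW : ∀ X : ∀ i, Matrix (Fin (N i)) (Fin (N i)) ℚ_[2],
        (∀ i, Pool.Agent.Y142.ZS.SpLie (Pool.Agent.R932.PO.JL J 2 i) (X i)) →
        Pool.Agent.N171.TG.WTan (fun i => ρ i 2) τ X := fun X hX =>
      Pool.Agent.N171.TG.wtan_of_large (fun i => ρ i 2) (fun i => adic 2 (J i))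
        (fun i => (powMonoidHom (w i)).comp (κ 2))
        (fun i => Pool.Agent.R932.OP.even_of_alt (halt2 i) (hdet2 i)) h2.rank halt2 h2.integral
        h2.integral_form (fun i g => h.similitude i 2 g) e h2.integral_vectors h2.products
        h2.permutations τ hτ.integral hτ.free X hX
    have h3 : IsFibreProduct w J (fun i => ρ i 2) τ (κ 2) := fun X Y c =>
      Pool.Agent.N171.TG.tan3_iff (ℓ := 2) (w := w) (J := fun i => adic 2 (J i))
        (fun i => h.continuous i 2) hτ.continuous (h.continuous_char 2) hform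
        (fun i g => h.similitude i 2 g) (fun X hX => hW X hX) X Y c
    refine ⟨h3, fun 𝔪 _ h5 => ⟨fun h6 X Y c hm => ?_, fun h6 X Y c hm => ?_⟩⟩
    · exact ((h3 X Y c).1 (h6 X Y c hm)).1
    · exact (h3 X Y c).2 ⟨h6 X Y c hm, h5 X Y c hm⟩

end Pool.Agent.Results.MP_b8862a_ag.FromImageModTwo
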