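import Pool.Agent.N132.Lit.Conv

/-!
# The common index of the Hodge classes and of the `ℓ`-adic Tate classes over the motivated classes

Let `X` be a smooth projective variety (with nonzero cohomology) over a finitely generated subfield
of `ℂ`. On the power `X ^ n` let `m n`, `h n` and `t n` be the dimensions of the spaces spanned by the
motivated classes (André), by the Hodge classes and, for a prime number `ℓ`, by the `ℓ`-adic Tate
classes (classes on which an open subgroup of the Galois group acts through the cyclotomic
character).

We prove, without any hypothesis on `X`: there is ONE natural number `N ≥ 1` (depending only on `X`)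
such that `h n / m n` converges to `N` or to `∞`, and for each prime number `ℓ` the quotient
`t n / m n` converges to `N` or to `∞`. If `h n / m n` has a finite limit then all Hodge classes on all
powers of `X` are `ℓ`-adic Tate classes for all `ℓ`. If `t n / m n` has a finite limit for ONE prime
number `ℓ` then the `ℓ`-adic Tate classes on all powers of `X` are the linear combinations of rational
classes which are Hodge classes and `ℓ'`-adic Tate classes for all prime numbers `ℓ'`. If both limits
are finite then the Mumford-Tate conjecture at `ℓ` holds for all powers of `X` (Tate classes and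
combinations of Hodge classes are the same). The limits are `1` if and only if all Hodge classes,
respectively all Tate classes, on all powers of `X` are (combinations of) motivated classes.

Thus, for the motivated Mumford-Tate conjecture for the category generated by the motive of `X`, the
motivated classes have either density zero or density exactly `1 / N` in the Hodge classes and in
the Tate classes for each `ℓ`, with the same `N` (`N` corresponds to the number of connected
components of the motivic Galois group); and the Mumford-Tate conjecture at `ℓ` for all powers of `X`
follows if both densities are not zero.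

In the Lean statement `T` is the cohomology of the complex manifolds with rational coefficients and
its Hodge decomposition, and `F` is the family of the actions of the Galois group on the `ℓ`-adic
cohomology, which is the cohomology `T.W` with coefficients extended to `ℚ_ℓ` by the comparison
theorem, for a set `F.J` of prime numbers. The power `pw X n` is the product of `n + 1` copies of
`X`. (The definitions are in `Pool/Agent/N132/Lit/Defs.lean`.)
-/

open CategoryTheory AlgebraicGeometry

universe u

namespace Pool.Agent.Results.MP_b8862a_ag.HodgeTateIndex

open Pool.Agent.H914 Pool.Agent.H914.VarClass Pool.Agent.H914.VarClass.Obj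
  Pool.Agent.H914.WeilCohomology Pool.Agent.Y121.AHS Pool.Agent.N132.Lit

open Pool.Agent.Y133.Half (pw HasIndex)
open Pool.Agent.R920.MT (IsMotivated)

variable {k : Type u} [Field k] {𝒱 : VarClass k} {ops : CycleOps 𝒱}

theorem result (T : HodgeTheory ops) (F : GalFamily T.W) (X : 𝒱.Obj) [Nontrivial (T.W.H X)]
    (m h : ℕ → ℕ) (t : F.J → ℕ → ℕ) (hm : ∀ n, m n = motDim T.W (pw X n))
    (hh : ∀ n, h n = hodgeDim T (pw X n)) (ht : ∀ a n, t a n = tateDim F a (pw X n)) :
    ∃ (N : ℕ) (NH : ℕ∞) (NT : F.J → ℕ∞), 1 ≤ N ∧ (NH = N ∨ NH = ⊤) ∧
      (∀ a, NT a = N ∨ NT a = ⊤) ∧ HasIndex h m NH ∧ (∀ a, HasIndex (t a) m (NT a)) ∧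
      (NH = 1 ↔ ∀ n, HodgeMotivated T (pw X n)) ∧
      (∀ a, NT a = 1 ↔ ∀ n, TateFrom F a (pw X n) (IsMotivated T.W (pw X n))) ∧
      (NH ≠ ⊤ → ∀ n, HodgeIsTate F (pw X n)) ∧
      (∀ a, NT a ≠ ⊤ → ∀ n, TateFrom F a (pw X n) (IsHodgeTate F (pw X n))) ∧
      (∀ a, NH ≠ ⊤ → NT a ≠ ⊤ → ∀ n, MumfordTateOn F a (pw X n)) := by
  obtain rfl := funext hm
  obtain rfl := funext hh
  obtain rfl : t = fun a n => tateDim F a (pw X n) := funext fun a => funext (ht a)
  exact main T F X

end Pool.Agent.Results.MP_b8862a_ag.HodgeTateIndex
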