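import Pool.Agent.N184.HK.V7

/-!
# The Mumford-Tate conjecture for projective hyperkähler varieties

Let `X` be a projective hyperkähler variety over a number field `K`, of any deformation type. We
prove that the Mumford-Tate conjecture for `H²(X)` (a theorem of André if `b₂ ≠ 3`) implies the
Mumford-Tate conjecture for the whole cohomology of `X` (and so for all powers of `X`), at every
prime `ℓ`. In fact the representation of a small open subgroup of the Galois group on `H^i` is
determined by the representation on `H²`: if `σ` acts on `H²` by `exp(t + S)`, where `t` is a scalar
and `S` in `so(H²)`, then it acts on `H^i` by `exp(i t / 2 + ρ_i(S))`, where `ρ_i` is the action of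
`so(H²)` on `H^i` (Verbitsky, Looijenga-Lunts). The Mumford-Tate group has the same property.

Idea of the proof. Let `A_i` be the algebra of the endomorphisms of `H^i` which commute with `so(H²)`.

(1) At a good place of degree one the slope operator of the crystalline cohomology `H^i` is
`i / 2 + ρ_i(S) + T_i`, with `S` in `so(H²)` and `T_i` in `A_i`. As `so(H²)` is perfect, the Hodge
numbers of the eigenspaces of `T_i` are `i / 2` times the dimension, and weak admissibility shows
that `T_i` is nilpotent. Equivalently the sum over `i` of the second moments of the slopes is a
constant, depending on the cohomology ring only, times the second moment for `H²`. Therefore the same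
is true for the `ℓ`-adic cohomology and the valuations above `p`, and the eigenvalues of Frobenius on
`A_i` are units at all places, hence roots of unity of bounded order.

(2) By Chebotarev's theorem an open subgroup `U` of the Galois group acts unipotently on `A_i`. The
inertia groups act through finite quotients: at places which do not divide `ℓ` because
`N_i - ρ_i(N_2)` is in `A_i` and has the eigenvalue `1 / q` for Frobenius, so is zero; above `ℓ`
because the Hodge-Tate weights of `A_i` are zero. By Kolchin's theorem and class field theory `U` acts
trivially on `A_i`.

(3) Let `σ` in `U` be close to `1`, `log_i σ` its logarithm on `H^i`, `log_2 σ = t + S`. Then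
`c = log_i σ - i t / 2 - ρ_i(S)` is in the center of `A_i`. The determinants of `σ` on the images of
the idempotents of `A_i` are known (they are powers of the multiplier up to roots of unity, because
this is true for Frobenius elements), and so the trace of `c z` is zero for all idempotents `z`; so `c`
is nilpotent, and zero by Weyl's theorem.
-/

set_option autoImplicit false

namespace Pool.Agent.Results.MP_b8862a_ag.HyperkaehlerVarieties

open Pool.Agent.N184.HK

/-- **The Mumford-Tate conjecture for projective hyperkähler varieties over number fields.** Let `L`
be the `ℓ`-adic logarithm on a small open subgroup `L.U` of the Galois group.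
(1) The logarithm of `σ` on `H^i` is `i t / 2 + ρ_i(S)` where `t + S` is the logarithm on `H²`.
(2) Let `h` in `so(H²)` be the Lie algebra of the Hodge group of `H²`. If the Lie algebra of the image
of the Galois group on `H²` is the Lie algebra of the Mumford-Tate group of `H²` (scalars and `h`),
then the Lie algebra of the image of the Galois group on the whole cohomology is the Lie algebra of
the Mumford-Tate group of the whole cohomology. -/
theorem result {K : Type} [Field K] [NumberField K] {Ω : Type} [Field Ω] [CharZero Ω]
    [IsAlgClosed Ω] [TopologicalSpace Ω] [IsTopologicalRing Ω] [T2Space Ω] (X : HKVariety K Ω)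
    (D : Inertia X) (L : Logarithm X) :
    (∀ σ ∈ L.U, X.IsOp (fun i => L.log i σ) (L.t σ) (L.S σ)) ∧
    ∀ h, L.MumfordTateTwo h → L.MumfordTate h :=
  ⟨fun _ hσ _ hi => log_act t_weyl D L hi hσ, fun h h2 => mtc_all t_weyl D L h h2⟩

end Pool.Agent.Results.MP_b8862a_ag.HyperkaehlerVarieties
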